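import Pool.Agent.Helper45_PGE.Defs

/-!
MP_5b1cbc_ag, squad PGE, module RAT: the projective line. For a general point `c` the maps
`v ↦ c + (j + 1) (v - c)` are infinitely many endomorphisms which fix `c`.
-/

set_option autoImplicit false

open CategoryTheory AlgebraicGeometry Polynomial

universe u

namespace Pool.Agent.PGE.H63

/-- Exchange: if `L` is algebraic over `k(v)` it is algebraic over `k(x)` for every
transcendental `x`. -/
theorem isAlgebraic_exchange {k L : Type u} [Field k] [Field L] [Algebra k L] {v : L}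
    (h : Algebra.IsAlgebraic (IntermediateField.adjoin k {v}) L) {x : L}
    (hx : Transcendental k x) : Algebra.IsAlgebraic (IntermediateField.adjoin k {x}) L := by
  have h1 : Algebra.IsAlgebraic (Algebra.adjoin k {v}) L :=
    IntermediateField.isAlgebraic_adjoin_iff_top.1 h
  have h2 : Algebra.trdeg k L ≤ 1 := by
    have h3 := Algebra.IsAlgebraic.trdeg_le_cardinalMk k ({v} : Set L)
    simpa using h3
  have h4 : AlgebraicIndependent k (fun _ : PUnit.{u + 1} => x) :=
    algebraicIndependent_unique_type_iff.2 hx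
  have h5 : IsTranscendenceBasis k (fun _ : PUnit.{u + 1} => x) :=
    h4.isTranscendenceBasis_of_trdeg_le_of_finite (by simpa using h2)
  have h6 := h5.isAlgebraic_field
  have h7 : Set.range (fun _ : PUnit.{u + 1} => x) = {x} := Set.range_const
  rw [h7] at h6
  exact h6

/-- Common denominators in `k(v)`. -/
theorem exists_den {k L : Type u} [Field k] [Field L] [Algebra k L] {v : L}
    (hv : Transcendental k v) (htop : IntermediateField.adjoin k {v} = ⊤) (S : Finset L) :
    ∃ D : k[X], D ≠ 0 ∧ ∀ s ∈ S, ∃ p : k[X], s = aeval v p * (aeval v D)⁻¹ := by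
  classical
  induction S using Finset.induction_on with
  | empty => exact ⟨1, one_ne_zero, by simp⟩
  | insert a T ha ih =>
    obtain ⟨D, hD, hT⟩ := ih
    have ha' : a ∈ IntermediateField.adjoin k {v} := by rw [htop]; exact IntermediateField.mem_top
    obtain ⟨r, q, hrq⟩ := (IntermediateField.mem_adjoin_simple_iff k a).1 ha'
    obtain ⟨r', q', hq', hrq'⟩ : ∃ r' q' : k[X], q' ≠ 0 ∧ a = aeval v r' / aeval v q' := by
      by_cases hq : q = 0
      · refine ⟨0, 1, one_ne_zero, ?_⟩
        rw [hrq, hq]
        simp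
      · exact ⟨r, q, hq, hrq⟩
    have hne : ∀ p : k[X], p ≠ 0 → aeval v p ≠ 0 := fun p hp =>
      (map_ne_zero_iff _ (transcendental_iff_injective.1 hv)).2 hp
    refine ⟨D * q', mul_ne_zero hD hq', ?_⟩
    intro s hs
    rw [Finset.mem_insert] at hs
    rcases hs with rfl | hs
    · refine ⟨r' * D, ?_⟩
      rw [hrq', map_mul, map_mul]
      have h1 := hne D hD
      have h2 := hne q' hq'
      field_simp
    · obtain ⟨p, hp⟩ := hT s hs
      refine ⟨p * q', ?_⟩
      rw [hp, map_mul, map_mul]
      have h1 := hne D hD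
      have h2 := hne q' hq'
      field_simp

section

variable {k L : Type u} [Field k] [Field L] [Algebra k L]

/-- the localization of `k[X]` at `D` -/
abbrev Loc (D : k[X]) : Type u := Localization.Away D

/-- extension of the evaluation at `w` with `D(w) ≠ 0` -/
noncomputable def evL {B : Type u} [Field B] [Algebra k B] (D : k[X]) (w : B)
    (hw : aeval w D ≠ 0) : Loc D →ₐ[k] B :=
  IsLocalization.liftAlgHom (M := Submonoid.powers D) (f := aeval w) (by
    rintro ⟨y, n, rfl⟩
    change IsUnit (aeval w (D ^ n))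
    rw [map_pow]
    exact (pow_ne_zero n hw).isUnit)

theorem evL_alg {B : Type u} [Field B] [Algebra k B] (D : k[X]) (w : B)
    (hw : aeval w D ≠ 0) (p : k[X]) : evL D w hw (algebraMap k[X] (Loc D) p) = aeval w p := by
  unfold evL
  rw [IsLocalization.liftAlgHom_apply]
  exact IsLocalization.lift_eq _ _

theorem exists_rep (D : k[X]) (z : Loc D) :
    ∃ (p : k[X]) (n : ℕ), z * algebraMap k[X] (Loc D) (D ^ n) = algebraMap k[X] (Loc D) p := by
  obtain ⟨⟨p, ⟨_, n, rfl⟩⟩, h⟩ := IsLocalization.surj (Submonoid.powers D) z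
  exact ⟨p, n, h⟩

theorem evL_injective {B : Type u} [Field B] [Algebra k B] (D : k[X]) {w : B}
    (hw : aeval w D ≠ 0) (ht : Transcendental k w) : Function.Injective (evL D w hw) := by
  rw [injective_iff_map_eq_zero]
  intro z hz
  obtain ⟨p, n, h⟩ := exists_rep D z
  have h1 := congrArg (evL D w hw) h
  rw [map_mul, hz, zero_mul, evL_alg] at h1
  have h2 : p = 0 := transcendental_iff_injective.1 ht (by rw [← h1, map_zero])
  rw [h2, map_zero] at h
  have h3 : IsUnit (algebraMap k[X] (Loc D) (D ^ n)) :=
    IsLocalization.map_units (Loc D) (⟨D ^ n, n, rfl⟩ : Submonoid.powers D)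
  exact (IsUnit.mul_left_eq_zero h3).1 h

theorem evL_range (D : k[X]) {v : L} (hw : aeval v D ≠ 0) :
    (evL D v hw).range = Algebra.adjoin k {v, (1 : L), (aeval v D)⁻¹} := by
  apply le_antisymm
  · rintro _ ⟨z, rfl⟩
    obtain ⟨p, n, h⟩ := exists_rep D z
    have h1 := congrArg (evL D v hw) h
    rw [map_mul, evL_alg, evL_alg, map_pow] at h1
    have h2 : evL D v hw z = aeval v p * ((aeval v D)⁻¹) ^ n := by
      rw [← h1, mul_assoc, ← mul_pow, mul_inv_cancel₀ hw, one_pow, mul_one]
    change evL D v hw z ∈ _
    rw [h2]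
    refine mul_mem ?_ (pow_mem (Algebra.subset_adjoin (by simp)) n)
    exact Algebra.adjoin_mono (Set.singleton_subset_iff.2 (by simp))
      (Polynomial.aeval_mem_adjoin_singleton k v)
  · rw [Algebra.adjoin_le_iff]
    intro y hy
    rcases hy with rfl | rfl | hy
    · exact ⟨algebraMap k[X] (Loc D) X, by
        change evL D y hw _ = y
        rw [evL_alg, aeval_X]⟩
    · exact one_mem _
    · rw [Set.mem_singleton_iff] at hy
      have h3 : IsUnit (algebraMap k[X] (Loc D) D) :=
        IsLocalization.map_units (Loc D) (⟨D, 1, pow_one D⟩ : Submonoid.powers D)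
      obtain ⟨y', hy'⟩ := h3.exists_right_inv
      refine ⟨y', ?_⟩
      change evL D v hw y' = y
      have h4 := congrArg (evL D v hw) hy'
      rw [map_mul, evL_alg, map_one] at h4
      rw [hy]
      exact eq_inv_of_mul_eq_one_right h4

end

/-- RAT -/
theorem rat (hSMO : SMOStmt.{u}) : RATStmt.{u} := by
  classical
  intro k L _ _ _ _ _ v hv htop
  have hinf : Infinite k := IsAlgClosed.instInfinite
  have hne : ∀ w : L, Transcendental k w → ∀ p : k[X], p ≠ 0 → aeval w p ≠ 0 := fun w hw p hp =>
    (map_ne_zero_iff _ (transcendental_iff_injective.1 hw)).2 hp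
  refine ⟨fun x hx => ?_, fun S => ?_⟩
  · refine isAlgebraic_exchange (v := v) ?_ hx
    constructor
    intro y
    have hy : y ∈ IntermediateField.adjoin k {v} := by rw [htop]; exact IntermediateField.mem_top
    exact isAlgebraic_algebraMap (⟨y, hy⟩ : IntermediateField.adjoin k {v})
  · obtain ⟨D, hD, hS⟩ := exists_den hv htop S
    have hDv : aeval v D ≠ 0 := hne v hv D hD
    obtain ⟨c, hc⟩ : ∃ c : k, D.eval c ≠ 0 := by
      by_contra hcon
      push Not at hcon
      exact hD (Polynomial.funext fun x => by rw [hcon x, eval_zero])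
    have hc' : aeval c D ≠ 0 := by rwa [← Polynomial.coe_aeval_eq_eval] at hc
    have hchar : CharZero L := charZero_of_injective_algebraMap (algebraMap k L).injective
    -- the maps
    let lin : ℕ → k[X] := fun j => C c + C ((j + 1 : ℕ) : k) * (X - C c)
    let w : ℕ → L := fun j => aeval v (lin j)
    have hwv : ∀ j, w j = algebraMap k L c + ((j + 1 : ℕ) : L) * (v - algebraMap k L c) := by
      intro j
      simp only [w, lin, map_add, map_mul, map_sub, aeval_C, aeval_X, map_natCast]
    have hlc : ∀ j, aeval c (lin j) = c := by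
      intro j
      simp [lin]
    have hvc : v - algebraMap k L c ≠ 0 := by
      intro h
      apply hv
      rw [sub_eq_zero.1 h]
      exact isAlgebraic_algebraMap c
    have hwt : ∀ j, Transcendental k (w j) := by
      intro j hcon
      apply hv
      have hj : ((j + 1 : ℕ) : L) ≠ 0 := Nat.cast_ne_zero.2 (Nat.succ_ne_zero j)
      have h1 : v = ((j + 1 : ℕ) : L)⁻¹ * (w j - algebraMap k L c) + algebraMap k L c := by
        rw [hwv, add_sub_cancel_left, inv_mul_cancel_left₀ hj, sub_add_cancel]
      rw [h1]
      have h2 : IsAlgebraic k (((j + 1 : ℕ) : L)⁻¹) := by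
        have h3 : ((j + 1 : ℕ) : L)⁻¹ = algebraMap k L (((j + 1 : ℕ) : k)⁻¹) := by
          rw [map_inv₀, map_natCast]
        rw [h3]
        exact isAlgebraic_algebraMap _
      exact (h2.mul (hcon.sub (isAlgebraic_algebraMap c))).add (isAlgebraic_algebraMap c)
    have hw : ∀ j, aeval (w j) D ≠ 0 := fun j => hne _ (hwt j) D hD
    have hcomp : ∀ (j : ℕ) (p : k[X]), aeval (w j) p = aeval v (p.comp (lin j)) := by
      intro j p
      rw [Polynomial.aeval_comp]
    have hcompc : ∀ (j : ℕ) (p : k[X]), aeval c (p.comp (lin j)) = aeval c p := by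
      intro j p
      rw [Polynomial.aeval_comp, hlc]
    let e : Loc D ≃ₐ[k] (evL D v hDv).range :=
      AlgEquiv.ofInjective _ (evL_injective D hDv hv)
    have he : ∀ z : Loc D, ((e z : (evL D v hDv).range) : L) = evL D v hDv z := fun z => rfl
    have hrange := evL_range D hDv
    refine ⟨(evL D v hDv).range, (evL D c hc').comp e.symm.toAlgHom,
      fun j => (evL D (w j) (hw j)).comp e.symm.toAlgHom, ?_, ?_, ?_, ?_, ?_⟩
    · intro s hs
      obtain ⟨p, hp⟩ := hS s hs
      rw [hrange, hp]
      refine mul_mem ?_ (Algebra.subset_adjoin (by simp))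
      exact Algebra.adjoin_mono (Set.singleton_subset_iff.2 (by simp))
        (Polynomial.aeval_mem_adjoin_singleton k v)
    · rw [hrange]
      refine hSMO k L v 1 1 D hv (by simp) one_ne_zero hD (one_dvd D) ?_
      rw [eq_top_iff, ← htop]
      exact IntermediateField.adjoin.mono k _ _ (by simp)
    · intro i j hij
      have h1 := congrArg (fun φ : (evL D v hDv).range →ₐ[k] L =>
        φ (e (algebraMap k[X] (Loc D) X))) hij
      have h2 : ∀ j, ((evL D (w j) (hw j)).comp e.symm.toAlgHom)
          (e (algebraMap k[X] (Loc D) X)) = w j := by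
        intro j
        change evL D (w j) (hw j) (e.symm (e _)) = w j
        rw [AlgEquiv.symm_apply_apply, evL_alg, aeval_X]
      have h5 : w i = w j := (h2 i).symm.trans (h1.trans (h2 j))
      rw [hwv, hwv] at h5
      have h3 := mul_right_cancel₀ hvc (add_left_cancel h5)
      have h4 : i + 1 = j + 1 := by exact_mod_cast h3
      omega
    · intro j
      exact (evL_injective D (hw j) (hwt j)).comp e.symm.injective
    · intro j a
      obtain ⟨p, n, h⟩ := exists_rep D (e.symm a)
      refine ⟨e (algebraMap k[X] (Loc D) (p.comp (lin j))),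
        e (algebraMap k[X] (Loc D) ((D ^ n).comp (lin j))), ?_, ?_, ?_⟩
      · change evL D c hc' (e.symm (e _)) ≠ 0
        rw [AlgEquiv.symm_apply_apply, evL_alg, hcompc, map_pow]
        exact pow_ne_zero n hc'
      · change evL D (w j) (hw j) (e.symm a) * _ = _
        rw [he, he, evL_alg, evL_alg, ← hcomp, ← hcomp, ← evL_alg D (w j) (hw j),
          ← evL_alg D (w j) (hw j) p, ← map_mul, h]
      · change evL D c hc' (e.symm (e _)) = evL D c hc' (e.symm a) *
          evL D c hc' (e.symm (e _))
        rw [AlgEquiv.symm_apply_apply, AlgEquiv.symm_apply_apply, evL_alg, evL_alg, hcompc,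
          hcompc, ← evL_alg D c hc', ← evL_alg D c hc' (D ^ n), ← map_mul, h]

end Pool.Agent.PGE.H63
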